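import Mathlib
import Pool.Agent.H27.G.R_seed8.Helper601.Mertens

set_option autoImplicit false

open Finset

namespace Pool.Agent.H295R3.D

/-- `n` has no prime factor `< z` -/
def Rough (z n : ℕ) : Prop := ∀ p : ℕ, p.Prime → p < z → ¬ p ∣ n

noncomputable instance (z : ℕ) : DecidablePred (Rough z) := fun _ => Classical.propDecidable _

lemma rough_sum_le_prod (z N : ℕ) :
    ∑ d ∈ (Icc 1 N).filter (Rough z), (1 : ℝ) / d ≤
      ∏ p ∈ (Icc z N).filter Nat.Prime, (1 - (1 : ℝ) / p)⁻¹ := by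
  let f : ℕ →* ℝ :=
    { toFun := fun n => ((n:ℝ))⁻¹
      map_one' := by simp
      map_mul' := by intro a b; push_cast; rw [mul_inv] }
  have hfv : ∀ n : ℕ, f n = ((n:ℝ))⁻¹ := fun _ => rfl
  have hf : ∀ {p : ℕ}, p.Prime → ‖f p‖ < 1 := by
    intro p hp
    rw [hfv, Real.norm_of_nonneg (by positivity)]
    have : (1:ℝ) < p := by exact_mod_cast hp.one_lt
    exact inv_lt_one_of_one_lt₀ this
  obtain ⟨h1, h2⟩ :=
    EulerProduct.summable_and_hasSum_factoredNumbers_prod_filter_prime_geometric hf (Icc z N)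
  have h3 : ∏ p ∈ (Icc z N).filter Nat.Prime, (1 - (1 : ℝ) / p)⁻¹ =
      ∏ p ∈ (Icc z N).filter Nat.Prime, (1 - f p)⁻¹ := by
    refine prod_congr rfl fun p _ => ?_
    rw [hfv, one_div]
  rw [h3, ← h2.tsum_eq]
  have hmem : ∀ d ∈ (Icc 1 N).filter (Rough z), d ∈ Nat.factoredNumbers (Icc z N) := by
    intro d hd
    rw [mem_filter, mem_Icc] at hd
    obtain ⟨⟨hd1, hd2⟩, hr⟩ := hd
    rw [Nat.mem_factoredNumbers_iff_forall_le]
    refine ⟨by omega, fun p hp hpp hpd => ?_⟩
    rw [mem_Icc]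
    refine ⟨?_, hp.trans hd2⟩
    by_contra hlt
    exact hr p hpp (by omega) hpd
  have h4 : ∑ d ∈ (Icc 1 N).filter (Rough z), (1 : ℝ) / d =
      ∑ m ∈ ((Icc 1 N).filter (Rough z)).subtype (· ∈ Nat.factoredNumbers (Icc z N)),
        f (m : ℕ) := by
    rw [Finset.sum_subtype_of_mem (fun m => f m) hmem]
    refine sum_congr rfl fun p _ => ?_
    rw [hfv, one_div]
  rw [h4]
  refine Summable.sum_le_tsum _ (fun m _ => ?_) h2.summable
  rw [hfv]; positivity

lemma sum_inv_mul_pred (z N : ℕ) (hz : 2 ≤ z) :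
    ∑ p ∈ (Icc z N).filter Nat.Prime, (1 : ℝ) / (p * (p - 1)) ≤ 1 := by
  have h1 : ∑ p ∈ (Icc z N).filter Nat.Prime, (1 : ℝ) / (p * (p - 1)) ≤
      ∑ p ∈ Icc 2 N, (1 : ℝ) / (p * (p - 1)) := by
    refine sum_le_sum_of_subset_of_nonneg ?_ ?_
    · intro p hp
      rw [mem_filter, mem_Icc] at hp
      rw [mem_Icc]
      omega
    · intro p hp _
      rw [mem_Icc] at hp
      have : (2:ℝ) ≤ p := by exact_mod_cast hp.1
      apply div_nonneg zero_le_one
      nlinarith
  refine h1.trans ?_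
  have h2 : ∀ N : ℕ, ∑ p ∈ Icc 2 N, (1 : ℝ) / (p * (p - 1)) ≤ 1 - 1 / ((max N 1 : ℕ) : ℝ) := by
    intro N
    induction N with
    | zero => simp
    | succ n ih =>
      rcases Nat.lt_or_ge n 1 with h | h
      · have : n = 0 := by omega
        subst this
        simp
      · rw [← insert_Icc_right_eq_Icc_add_one (by omega), sum_insert (by simp)]
        have e1 : max n 1 = n := by omega
        have e2 : max (n+1) 1 = n+1 := by omega
        rw [e1] at ih
        rw [e2]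
        have hn : (0:ℝ) < n := by exact_mod_cast h
        have : (1:ℝ) / (((n + 1 : ℕ) : ℝ) * (((n + 1 : ℕ) : ℝ) - 1)) = 1 / n - 1 / ((n + 1 : ℕ) : ℝ) := by
          have e3 : ((n + 1 : ℕ) : ℝ) - 1 = n := by push_cast; ring
          rw [e3]
          have e4 : ((n + 1 : ℕ) : ℝ) = n + 1 := by push_cast; ring
          rw [e4]
          field_simp
          ring
        rw [this]
        linarith
  refine (h2 N).trans ?_
  have : (0:ℝ) ≤ 1 / ((max N 1 : ℕ) : ℝ) := by positivity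
  linarith

/-- sum of reciprocals of rough numbers -/
theorem rough_sum : ∃ C : ℝ, 1 ≤ C ∧ ∀ z N : ℕ, 3 ≤ z → z ≤ N →
    ∑ d ∈ (Icc 1 N).filter (Rough z), (1 : ℝ) / d ≤ C * (Real.log N / Real.log z) := by
  obtain ⟨C, hC⟩ := Pool.Agent.Helper601.Mertens.mertens_inv
  have hC0 : 0 ≤ C := (abs_nonneg _).trans (hC 3 le_rfl)
  refine ⟨Real.exp (2 * C + 2), Real.one_le_exp (by linarith), fun z N hz hN => ?_⟩
  refine (rough_sum_le_prod z N).trans ?_
  have hzr : (3:ℝ) ≤ z := by exact_mod_cast hz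
  have hNr : (z:ℝ) ≤ N := by exact_mod_cast hN
  have hlz : 0 < Real.log z := Real.log_pos (by linarith)
  have hlN : 0 < Real.log N := Real.log_pos (by linarith)
  have h1 : ∏ p ∈ (Icc z N).filter Nat.Prime, (1 - (1 : ℝ) / p)⁻¹ ≤
      ∏ p ∈ (Icc z N).filter Nat.Prime, Real.exp (1 / p + 1 / (p * (p - 1))) := by
    refine prod_le_prod ?_ ?_
    · intro p hp
      rw [mem_filter, mem_Icc] at hp
      have : (3:ℝ) ≤ p := by exact_mod_cast hz.trans hp.1.1
      rw [inv_nonneg, sub_nonneg, div_le_one (by linarith)]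
      linarith
    · intro p hp
      rw [mem_filter, mem_Icc] at hp
      have hp3 : (3:ℝ) ≤ p := by exact_mod_cast hz.trans hp.1.1
      have hp1 : (0:ℝ) < p - 1 := by linarith
      have hp0 : (0:ℝ) < p := by linarith
      have e : (1 - (1:ℝ)/p)⁻¹ = 1 / (p - 1) + 1 := by
        field_simp
        ring
      have e2 : (1:ℝ) / p + 1 / (p * (p - 1)) = 1 / (p - 1) := by
        field_simp
        ring
      rw [e, e2]
      exact Real.add_one_le_exp _
  refine h1.trans ?_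
  rw [← Real.exp_sum, sum_add_distrib]
  have h2 := sum_inv_mul_pred z N (by omega)
  have h3 : ∑ p ∈ (Icc z N).filter Nat.Prime, (1:ℝ) / p ≤
      ∑ p ∈ (Icc 1 N).filter Nat.Prime, (1:ℝ) / p - ∑ p ∈ (Icc 1 z).filter Nat.Prime, (1:ℝ) / p
        + 1 := by
    have hsub : (Icc 1 z).filter Nat.Prime ⊆ (Icc 1 N).filter Nat.Prime :=
      filter_subset_filter _ (Icc_subset_Icc_right hN)
    rw [← sum_sdiff hsub]
    have h4 : ∑ p ∈ (Icc z N).filter Nat.Prime, (1:ℝ) / p ≤
        ∑ p ∈ insert z ((Icc 1 N).filter Nat.Prime \ (Icc 1 z).filter Nat.Prime), (1:ℝ) / p := by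
      refine sum_le_sum_of_subset_of_nonneg ?_ (fun _ _ _ => by positivity)
      intro p hp
      simp only [mem_filter, mem_Icc, mem_insert, mem_sdiff] at hp ⊢
      obtain ⟨⟨ha, hb⟩, hc⟩ := hp
      rcases eq_or_lt_of_le ha with h | h
      · left; exact h.symm
      · right
        exact ⟨⟨⟨by omega, hb⟩, hc⟩, fun h' => by omega⟩
    rw [sum_insert (by
      intro h
      simp only [mem_filter, mem_Icc, mem_sdiff] at h
      exact h.2 ⟨⟨by omega, le_rfl⟩, h.1.2⟩)] at h4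
    have h5 : (1:ℝ) / z ≤ 1 := by
      rw [div_le_one (by linarith)]; linarith
    linarith
  have h4 := (abs_le.1 (hC N (hz.trans hN))).2
  have h5 := (abs_le.1 (hC z hz)).1
  have h6 : ∑ p ∈ (Icc z N).filter Nat.Prime, (1:ℝ) / p +
      ∑ p ∈ (Icc z N).filter Nat.Prime, (1:ℝ) / (p * (p - 1)) ≤
      (2 * C + 2) + (Real.log (Real.log N) - Real.log (Real.log z)) := by
    linarith
  refine (Real.exp_le_exp.2 h6).trans ?_
  rw [Real.exp_add, Real.exp_sub, Real.exp_log hlN, Real.exp_log hlz]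

end Pool.Agent.H295R3.D
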