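import Mathlib
import Pool.Agent.H27.G.R_seed8.H295R3.Task469D
import Pool.Agent.H27.G.R_seed8.H180R3.Task469ACE
import Pool.Agent.H27.G.R_seed8.H154R3.Task469B

set_option autoImplicit false

namespace Pool.Agent.H295R3.D

/-- Selberg's formula (lower bound) in short intervals -/
theorem selbergShort : Pool.Agent.H469R10.HO.SelbergShort :=
  task469D Pool.Agent.H154R3.Fund.fundLemma

/-- primes in short intervals (positive proportion), no L-functions -/
theorem hoheisel : Pool.Agent.H469R10.HO.Hoheisel :=
  Pool.Agent.H180R3.E469.hoheisel_of_selbergShort selbergShort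

end Pool.Agent.H295R3.D
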